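import Mathlib
import Pool.Agent.Helper57.Met.PolyA

/-!
# The skeleton of a polytope with exposed edges: connectivity from chains of links

The same argument as in `Helper57.Met.PolyA`, for the adjacency by exposed faces.
-/

set_option autoImplicit false

open Set Finset

namespace Pool.Agent.Helper61.Met

open Pool.Agent.Helper57.Met

variable {E : Type*} [NormedAddCommGroup E] [NormedSpace ℝ E] {P : Set E} {V : Finset E}

/-- the segment from `u` to `v` is a one-dimensional (exposed) face of `P` -/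
def EdgeOf (P : Set E) (u v : E) : Prop :=
  u ≠ v ∧ ∃ l : E →ₗ[ℝ] ℝ, segment ℝ u v = {z | z ∈ P ∧ ∀ w ∈ P, l w ≤ l z}

theorem EdgeOf.symm {u v : E} (h : EdgeOf P u v) : EdgeOf P v u := by
  obtain ⟨h1, l, hl⟩ := h
  exact ⟨h1.symm, l, by rw [segment_symm]; exact hl⟩

theorem edgeOf_of_adj (h : FinPoly P V) {v u : E} (hv : v ∈ V) (hu : u ∈ V) (hvu : v ≠ u)
    (ha : AdjV V v u) : EdgeOf P v u := by
  classical
  obtain ⟨l, h1, h2⟩ := ha
  have hleV : ∀ w ∈ V, l w ≤ l v := by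
    intro w hw
    by_cases hwv : w = v
    · rw [hwv]
    by_cases hwu : w = u
    · rw [hwu, h1]
    exact (h2 w hw hwv hwu).le
  have hle : ∀ x ∈ P, l x ≤ l v := by
    intro x hx
    rw [h.hull, Finset.mem_convexHull'] at hx
    obtain ⟨w, hw0, hw1, rfl⟩ := hx
    rw [map_sum]
    simp only [map_smul, smul_eq_mul]
    calc ∑ y ∈ V, w y * l y ≤ ∑ y ∈ V, w y * l v :=
          Finset.sum_le_sum fun y hy => mul_le_mul_of_nonneg_left (hleV y hy) (hw0 y hy)
      _ = l v := by rw [← Finset.sum_mul, hw1, one_mul]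
  have heq : ∀ x ∈ P, l x = l v → x ∈ segment ℝ v u := by
    intro x hx hlx
    rw [h.hull, Finset.mem_convexHull'] at hx
    obtain ⟨w, hw0, hw1, rfl⟩ := hx
    rw [map_sum] at hlx
    simp only [map_smul, smul_eq_mul] at hlx
    have hz : ∑ y ∈ V, w y * (l v - l y) = 0 := by
      simp only [mul_sub, Finset.sum_sub_distrib]
      rw [hlx, ← Finset.sum_mul, hw1]; ring
    have hz' := (Finset.sum_eq_zero_iff_of_nonneg (fun y hy =>
      mul_nonneg (hw0 y hy) (sub_nonneg.2 (hleV y hy)))).1 hz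
    have hw2 : ∀ y ∈ V, y ≠ v → y ≠ u → w y = 0 := by
      intro y hy hyv hyu
      have h3 := hz' y hy
      have h4 := h2 y hy hyv hyu
      rcases mul_eq_zero.1 h3 with h5 | h5
      · exact h5
      · linarith
    have hsub : ({v, u} : Finset E) ⊆ V := by
      intro y hy; simp at hy; rcases hy with rfl | rfl <;> assumption
    have hs1 : ∑ y ∈ V, w y = w v + w u := by
      rw [← Finset.sum_subset hsub (fun y hy hy' => ?_), Finset.sum_pair hvu]
      simp at hy'; exact hw2 y hy hy'.1 hy'.2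
    have hs2 : ∑ y ∈ V, w y • y = w v • v + w u • u := by
      rw [← Finset.sum_subset hsub (fun y hy hy' => ?_), Finset.sum_pair hvu]
      simp at hy'; rw [hw2 y hy hy'.1 hy'.2, zero_smul]
    rw [hs2]
    exact ⟨w v, w u, hw0 v hv, hw0 u hu, by rw [← hs1, hw1], rfl⟩
  have hPconv : Convex ℝ P := by rw [h.hull]; exact convex_convexHull ℝ _
  have hvP : v ∈ P := by rw [h.hull]; exact subset_convexHull ℝ _ (by exact_mod_cast hv)
  have huP : u ∈ P := by rw [h.hull]; exact subset_convexHull ℝ _ (by exact_mod_cast hu)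
  refine ⟨hvu, l, ?_⟩
  ext z
  constructor
  · intro hz
    refine ⟨hPconv.segment_subset hvP huP hz, fun w hw => ?_⟩
    obtain ⟨a, b, ha, hb, hab, rfl⟩ := hz
    have : l (a • v + b • u) = l v := by
      simp only [map_add, map_smul, smul_eq_mul]
      rw [← h1, ← add_mul, hab, one_mul]
    rw [this]
    exact hle w hw
  · rintro ⟨hz, hmax⟩
    exact heq z hz (le_antisymm (hle z hz) (hmax v hvP))

section Graph

/-- the graph on the non-`Q` extreme points of `P`, two being joined when they span an edge -/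
def HE (P : Set E) (Q : E → Prop) : SimpleGraph (NQ P Q) where
  Adj u v := EdgeOf P u.1 v.1
  symm := ⟨fun _ _ h => h.symm⟩
  loopless := ⟨fun _ h => h.1 rfl⟩

variable {Q : E → Prop}

theorem reach_of_path (h : FinPoly P V) (c : E →ₗ[ℝ] ℝ) (κ : ℝ)
    (hcut : ∀ x ∈ V, Q x → c x ≤ κ) {a b : E} (hab : Relation.ReflTransGen (HStep V c κ) a b)
    (ha : a ∈ V) (hκa : κ < c a) :
    ∃ (a' b' : NQ P Q), a'.1 = a ∧ b'.1 = b ∧ (HE P Q).Reachable a' b' := by
  have mk : ∀ x ∈ V, κ < c x → x ∈ Set.extremePoints ℝ P ∧ ¬ Q x := by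
    intro x hx hκ
    refine ⟨by rw [← h.ext]; exact_mod_cast hx, fun hQ => ?_⟩
    have := hcut x hx hQ
    linarith
  induction hab with
  | refl => exact ⟨⟨a, mk a ha hκa⟩, ⟨a, mk a ha hκa⟩, rfl, rfl, SimpleGraph.Reachable.refl _⟩
  | @tail b c' _ hstep ih =>
    obtain ⟨a', b', ha', hb', hr⟩ := ih
    obtain ⟨hbV, hcV, hbc, hadj, hκb, hκc⟩ := hstep
    refine ⟨a', ⟨c', mk c' hcV hκc⟩, ha', rfl, hr.trans (SimpleGraph.Adj.reachable ?_)⟩
    change EdgeOf P b'.1 c'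
    rw [hb']
    exact edgeOf_of_adj h hbV hcV hbc hadj

theorem reach_of_common (h : FinPoly P V) (c : E →ₗ[ℝ] ℝ) (κ : ℝ)
    (hcut : ∀ x ∈ V, Q x → c x ≤ κ) (u v : NQ P Q) (hu : κ < c u.1) (hv : κ < c v.1) :
    (HE P Q).Reachable u v := by
  have hmemV : ∀ x, x ∈ P.extremePoints ℝ → x ∈ V := by
    intro x hx; rw [← h.ext] at hx; exact_mod_cast hx
  have huV : u.1 ∈ V := hmemV _ u.2.1
  have hvV : v.1 ∈ V := hmemV _ v.2.1
  obtain ⟨z, hz, hpath⟩ := path_to_max h c κ ⟨_, huV⟩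
  obtain ⟨a1, b1, e1, e2, r1⟩ := reach_of_path h c κ hcut (hpath u.1 huV hu) huV hu
  obtain ⟨a2, b2, e3, e4, r2⟩ := reach_of_path h c κ hcut (hpath v.1 hvV hv) hvV hv
  have h1 : a1 = u := Subtype.ext e1
  have h2 : a2 = v := Subtype.ext e3
  have h3 : b1 = b2 := Subtype.ext (by rw [e2, e4])
  subst h1 h2 h3
  exact r1.trans r2.symm

theorem reach_of_link (h : FinPoly P V) (c c' : E →ₗ[ℝ] ℝ) (κ κ' : ℝ)
    (hcut : ∀ x ∈ V, Q x → c x ≤ κ) (hcut' : ∀ x ∈ V, Q x → c' x ≤ κ')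
    {x : E} (hx : x ∈ P) (hκ : κ < c x) (hκ' : κ' < c' x)
    (u v : NQ P Q) (hu : κ < c u.1) (hv : κ' < c' v.1) :
    (HE P Q).Reachable u v := by
  -- the interpolated functionals
  set L : ℝ → E →ₗ[ℝ] ℝ := fun t => (1 - t) • c + t • c' with hL
  set K : ℝ → ℝ := fun t => (1 - t) * κ + t * κ' with hK
  have hLx : ∀ t y, L t y = (1 - t) * c y + t * c' y := by intro t y; simp [hL]
  have hcutL : ∀ t ∈ Set.Icc (0:ℝ) 1, ∀ y ∈ V, Q y → L t y ≤ K t := by
    intro t ht y hy hQ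
    rw [hLx, hK]
    have h1 := mul_le_mul_of_nonneg_left (hcut y hy hQ) (sub_nonneg.2 ht.2)
    have h2 := mul_le_mul_of_nonneg_left (hcut' y hy hQ) ht.1
    simp only; linarith
  have hxL : ∀ t ∈ Set.Icc (0:ℝ) 1, K t < L t x := by
    intro t ht
    rw [hLx, hK]
    simp only
    by_cases h0 : t = 0
    · subst h0; linarith
    · have h1 : 0 < t := lt_of_le_of_ne ht.1 (Ne.symm h0)
      have h2 := mul_lt_mul_of_pos_left hκ' h1
      have h3 := mul_le_mul_of_nonneg_left hκ.le (sub_nonneg.2 ht.2)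
      linarith
  -- open sets
  set O1 : Set ℝ := {t | ∃ w : NQ P Q, (HE P Q).Reachable u w ∧ K t < L t w.1} with hO1
  set O2 : Set ℝ := {t | ∃ w : NQ P Q, ¬ (HE P Q).Reachable u w ∧ K t < L t w.1} with hO2
  have hopen : ∀ w : NQ P Q, IsOpen {t : ℝ | K t < L t w.1} := by
    intro w
    apply isOpen_lt
    · rw [hK]; fun_prop
    · simp only [hLx]; fun_prop
  have hO1open : IsOpen O1 := by
    have : O1 = ⋃ w : {w : NQ P Q // (HE P Q).Reachable u w}, {t : ℝ | K t < L t w.1.1} := by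
      ext t; simp only [hO1, Set.mem_ofPred_eq, Set.mem_iUnion]
      constructor
      · rintro ⟨w, hw, hlt⟩; exact ⟨⟨w, hw⟩, hlt⟩
      · rintro ⟨⟨w, hw⟩, hlt⟩; exact ⟨w, hw, hlt⟩
    rw [this]; exact isOpen_iUnion fun w => hopen w.1
  have hO2open : IsOpen O2 := by
    have : O2 = ⋃ w : {w : NQ P Q // ¬ (HE P Q).Reachable u w}, {t : ℝ | K t < L t w.1.1} := by
      ext t; simp only [hO2, Set.mem_ofPred_eq, Set.mem_iUnion]
      constructor
      · rintro ⟨w, hw, hlt⟩; exact ⟨⟨w, hw⟩, hlt⟩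
      · rintro ⟨⟨w, hw⟩, hlt⟩; exact ⟨w, hw, hlt⟩
    rw [this]; exact isOpen_iUnion fun w => hopen w.1
  have hcover : Set.Icc (0:ℝ) 1 ⊆ O1 ∪ O2 := by
    intro t ht
    obtain ⟨w, hw⟩ := exists_vertex_gt h (L t) (K t) (hcutL t ht) hx (hxL t ht)
    by_cases hr : (HE P Q).Reachable u w
    · exact Or.inl ⟨w, hr, hw⟩
    · exact Or.inr ⟨w, hr, hw⟩
  have hdisj : ∀ t ∈ Set.Icc (0:ℝ) 1, t ∈ O1 → t ∈ O2 → False := by
    rintro t ht ⟨w1, hw1, hlt1⟩ ⟨w2, hw2, hlt2⟩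
    exact hw2 (hw1.trans (reach_of_common h (L t) (K t) (hcutL t ht) w1 w2 hlt1 hlt2))
  have h0 : (Set.Icc (0:ℝ) 1 ∩ O1).Nonempty := by
    refine ⟨0, by simp, u, SimpleGraph.Reachable.refl _, ?_⟩
    rw [hLx, hK]; simpa using hu
  by_contra hnr
  have h1 : (Set.Icc (0:ℝ) 1 ∩ O2).Nonempty := by
    refine ⟨1, by simp, v, hnr, ?_⟩
    rw [hLx, hK]; simpa using hv
  obtain ⟨t, ht, ht1, ht2⟩ := isPreconnected_Icc O1 O2 hO1open hO2open hcover h0 h1
  exact hdisj t ht ht1 ht2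

theorem reach_of_chain (h : FinPoly P V) (u : NQ P Q) {y : E}
    (hy : Relation.ReflTransGen (Lnk P Q) u.1 y) :
    ∀ (c : E →ₗ[ℝ] ℝ) (κ : ℝ), (∀ x ∈ P, Q x → c x ≤ κ) → κ < c y →
      ∀ v : NQ P Q, κ < c v.1 → (HE P Q).Reachable u v := by
  have hVP : ∀ x ∈ V, x ∈ P := by
    intro x hx; rw [h.hull]; exact subset_convexHull ℝ _ (by exact_mod_cast hx)
  induction hy with
  | refl =>
    intro c κ hc hκ v hv
    exact reach_of_common h c κ (fun x hx => hc x (hVP x hx)) u v hκ hv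
  | @tail b y _ hstep ih =>
    obtain ⟨hyP, c0, κ0, hc0, hb0, hy0⟩ := hstep
    intro c κ hc hκ v hv
    obtain ⟨v0, hv0⟩ := exists_vertex_gt h c0 κ0 (fun x hx => hc0 x (hVP x hx)) hyP hy0
    have h1 := ih c0 κ0 hc0 hb0 v0 hv0
    exact h1.trans (reach_of_link h c0 c κ0 κ (fun x hx => hc0 x (hVP x hx))
      (fun x hx => hc x (hVP x hx)) hyP hy0 hκ v0 v hv0 hv)

theorem connected_of_chain (h : FinPoly P V)
    (hch : ∀ u v : NQ P Q, Relation.ReflTransGen (Lnk P Q) u.1 v.1) (hne : Nonempty (NQ P Q)) :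
    (HE P Q).Connected := by
  rw [SimpleGraph.connected_iff]
  refine ⟨fun u v => ?_, hne⟩
  rcases Relation.ReflTransGen.cases_tail (hch u v) with h1 | ⟨y, hy, hstep⟩
  · have : v = u := Subtype.ext h1
    rw [this]
  · obtain ⟨hvP, c, κ, hc, hκy, hκv⟩ := hstep
    exact reach_of_chain h u hy c κ hc hκy v hκv

end Graph

end Pool.Agent.Helper61.Met
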